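import Pool.Agent.Helper33.Iso.Goals2

/-!
# The packet NONISO
-/

set_option autoImplicit false

open Topology unitInterval RealInnerProductSpace
open Pool.Agent.Helper72.Orb

namespace Pool.Agent.Helper64.Iso

universe u w

theorem gNONISO : Pool.Agent.Helper33.Iso.NONISO.{u, w} := by
  intro H _ _ V _ _ _ _ hV hs
  -- special vectors
  obtain ⟨p, hp, ⟨k, hk1, hkp⟩, hfree⟩ := exists_minimal hV hs
  obtain ⟨g, hg, hgst⟩ := exists_generic hV ⟨k, hk1⟩
  obtain ⟨d, hd, hgap⟩ := exists_gap (H := H) p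
  obtain ⟨c₁, hc₁, hconst⟩ := exists_free_const hV hfree
  -- a unit vector of `W`
  obtain ⟨q, hq⟩ : ∃ q : WW hV p, ‖q‖ = 1 := by
    obtain ⟨x, hx⟩ : ∃ x : V, k • x ≠ x := by
      by_contra h
      push Not at h
      exact hk1 (hV.faithful k h)
    have hmem := sub_smul_mem hV hkp x
    have hne : x - k • x ≠ 0 := fun h => hx (sub_eq_zero.1 h).symm
    have hn : 0 < ‖x - k • x‖ := norm_pos_iff.2 hne
    refine ⟨‖x - k • x‖⁻¹ • ⟨x - k • x, hmem⟩, ?_⟩
    rw [norm_smul, norm_inv, norm_norm]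
    exact inv_mul_cancel₀ hn.ne'
  -- the map `M = 1 - k` on `W` and its inverse
  let M : WW hV p →ₗ[ℝ] WW hV p :=
    { toFun := fun x => ⟨(x : V) - k • (x : V), sub_smul_mem hV hkp _⟩
      map_add' := by
        intro x y
        apply Subtype.ext
        change ((x : V) + y) - k • ((x : V) + y) = ((x : V) - k • (x : V)) + ((y : V) - k • (y : V))
        rw [hV.smul_add]
        abel
      map_smul' := by
        intro r x
        apply Subtype.ext
        change (r • (x : V)) - k • (r • (x : V)) = r • ((x : V) - k • (x : V))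
        rw [hV.smul_smul, smul_sub] }
  have hMval : ∀ x, ((M x : WW hV p) : V) = (x : V) - k • (x : V) := fun x => rfl
  have hMinj : Function.Injective M := by
    rw [← LinearMap.ker_eq_bot, LinearMap.ker_eq_bot']
    intro x hx
    have h1 : (x : V) - k • (x : V) = 0 := congrArg Subtype.val hx
    exact Subtype.ext (hfree k hk1 hkp x x.2 (sub_eq_zero.1 h1).symm)
  let Mi : WW hV p →ₗ[ℝ] WW hV p := (LinearEquiv.ofInjectiveEndo M hMinj).symm
  have hMi : ∀ x, M (Mi x) = x := fun x =>
    (LinearEquiv.ofInjectiveEndo M hMinj).apply_symm_apply x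
  have hMic : Continuous Mi := Mi.continuous_of_finiteDimensional
  have hMi2 : ∀ x, ‖x‖ ≤ 2 * ‖Mi x‖ := by
    intro x
    have h1 : ‖x‖ = ‖((Mi x : WW hV p) : V) - k • ((Mi x : WW hV p) : V)‖ := by
      conv_lhs => rw [← hMi x]
      rfl
    rw [h1]
    calc ‖((Mi x : WW hV p) : V) - k • ((Mi x : WW hV p) : V)‖
        ≤ ‖((Mi x : WW hV p) : V)‖ + ‖k • ((Mi x : WW hV p) : V)‖ := norm_sub_le _ _
      _ = 2 * ‖Mi x‖ := by rw [hV.norm_smul]; rw [Submodule.coe_norm]; ring
  -- `ε`
  set ε : ℝ := min (1 / 2) (c₁ / 8) with hε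
  have hεpos : 0 < ε := lt_min (by norm_num) (by positivity)
  have hε1 : ε ≤ 1 / 2 := min_le_left _ _
  have hε2 : ε ≤ c₁ / 8 := min_le_right _ _
  -- the parametrisation of the sphere of `Z`
  have hfin : 2 ≤ Module.finrank ℝ (ZZ hV p) := by
    have h1 : 1 ≤ Module.finrank ℝ (WW hV p) := by
      apply Module.finrank_pos_iff_exists_ne_zero.2
      refine ⟨q, fun h => ?_⟩
      rw [h, norm_zero] at hq
      exact zero_ne_one hq
    have h2 : Module.finrank ℝ (ZZ hV p) = Module.finrank ℝ (WW hV p) +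
        (Module.finrank ℝ (WW hV p) + Module.finrank ℝ (F0 hV p)) := by
      rw [Module.finrank_prod, Module.finrank_prod]
    omega
  obtain ⟨N, hN⟩ : ∃ N, Module.finrank ℝ (ZZ hV p) = N + 1 :=
    ⟨Module.finrank ℝ (ZZ hV p) - 1, by omega⟩
  have hN1 : 1 ≤ N := by omega
  have hene : ((q, 0, 0) : ZZ hV p) ≠ 0 := by
    intro h
    have : q = 0 := congrArg Prod.fst h
    rw [this, norm_zero] at hq
    exact zero_ne_one hq
  obtain ⟨κ, hκ0, hκb, hκ⟩ := exists_kappa hN1 hN ((q, 0, 0) : ZZ hV p) hene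
  -- the vectors `A` and `B`
  let A : (Fin N → I) → WW hV p := fun x => Mi ((κ x).1 - ε • (κ x).2.1)
  let R : (Fin N → I) → V := fun x => ε • (((κ x).2.1 : WW hV p) : V) +
    (‖(κ x).2.1‖ - ‖(κ x).1‖) • p + (((κ x).2.2 : F0 hV p) : V)
  have hAc : Continuous A := by
    apply hMic.comp
    have h1 : Continuous fun x => (κ x).1 := continuous_fst.comp κ.continuous
    have h2 : Continuous fun x => (κ x).2.1 := (continuous_fst.comp continuous_snd).comp κ.continuous
    exact h1.sub (h2.const_smul ε)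
  have hRc : Continuous R := by
    have h1 : Continuous fun x => (κ x).1 := continuous_fst.comp κ.continuous
    have h2 : Continuous fun x => (κ x).2.1 := (continuous_fst.comp continuous_snd).comp κ.continuous
    have h3 : Continuous fun x => (κ x).2.2 := (continuous_snd.comp continuous_snd).comp κ.continuous
    exact (((continuous_subtype_val.comp h2).const_smul ε).add
      ((h2.norm.sub h1.norm).smul continuous_const)).add (continuous_subtype_val.comp h3)
  -- a common bound
  obtain ⟨C, hC⟩ : ∃ C : ℝ, ∀ x, ‖(A x : V)‖ ≤ C ∧ ‖(A x : V) + R x‖ ≤ C := by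
    have h1 : Continuous fun x => ‖((A x : WW hV p) : V)‖ + ‖((A x : WW hV p) : V) + R x‖ :=
      (continuous_subtype_val.comp hAc).norm.add
        ((continuous_subtype_val.comp hAc).add hRc).norm
    obtain ⟨C, hC⟩ := (isCompact_range h1).bddAbove
    refine ⟨C, fun x => ?_⟩
    have h2 := hC ⟨x, rfl⟩
    simp only at h2
    have h3 := norm_nonneg ((A x : WW hV p) : V)
    have h4 := norm_nonneg (((A x : WW hV p) : V) + R x)
    constructor <;> linarith
  have hC0 : 0 ≤ C := le_trans (norm_nonneg _) (hC (fun _ => 0)).1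
  -- the scale
  set c : ℝ := min 1 (d / 4) / (C + 1) with hcdef
  have hc : 0 < c := by
    apply div_pos (lt_min one_pos (by positivity))
    linarith
  have hcC : ∀ y : V, ‖y‖ ≤ C → ‖c • y‖ ≤ 1 ∧ ‖c • y‖ ≤ d / 4 := by
    intro y hy
    have h1 : ‖c • y‖ ≤ min 1 (d / 4) := by
      rw [norm_smul, Real.norm_eq_abs, abs_of_pos hc, hcdef]
      have h2 : min 1 (d / 4) / (C + 1) * ‖y‖ ≤ min 1 (d / 4) / (C + 1) * (C + 1) :=
        mul_le_mul_of_nonneg_left (by linarith) hc.le
      rwa [div_mul_cancel₀ _ (by linarith : C + 1 ≠ 0)] at h2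
    exact ⟨h1.trans (min_le_left _ _), h1.trans (min_le_right _ _)⟩
  -- the points
  let PX : (Fin N → I) → V := fun x => p + c • (A x : V)
  let PY : (Fin N → I) → V := fun x => p + c • ((A x : V) + R x)
  have hPX : ∀ x, PX x = p + c • (A x : V) := fun x => rfl
  have hPY : ∀ x, PY x = p + c • ((A x : V) + R x) := fun x => rfl
  have hnear : ∀ y : V, ‖y‖ ≤ C → ‖p + c • y‖ < 5 := by
    intro y hy
    have := norm_add_le p (c • y)
    have := (hcC y hy).1
    linarith
  have hnX : ∀ x, ‖PX x‖ < 5 := fun x => hnear _ (hC x).1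
  have hnY : ∀ x, ‖PY x‖ < 5 := fun x => hnear _ (hC x).2
  -- elements of `H` relating two points near `p` fix `p`
  have hfix : ∀ (y y' : V) (h : H), ‖y‖ ≤ C → ‖y'‖ ≤ C → p + c • y' = h • (p + c • y) →
      h • p = p ∧ y' = h • y := by
    intro y y' h hy hy' e
    have h1 : h • p = p := by
      by_contra hne
      have h2 := hgap h hne
      have h3 : h • p - p = c • y' - h • (c • y) := by
        rw [hV.smul_add] at e
        rw [sub_eq_sub_iff_add_eq_add, ← e, add_comm]
      have h4 : ‖c • y' - h • (c • y)‖ ≤ ‖c • y'‖ + ‖c • y‖ := by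
        refine (norm_sub_le _ _).trans ?_
        rw [hV.norm_smul]
      have h5 := (hcC y hy).2
      have h6 := (hcC y' hy').2
      rw [h3] at h2
      linarith
    refine ⟨h1, ?_⟩
    rw [hV.smul_add, h1, hV.smul_smul] at e
    exact smul_right_injective _ hc.ne' (add_left_cancel e)
  have hFW : ∀ w' ∈ WW hV p, ∀ f ∈ Fx hV p, ⟪f, w'⟫ = 0 := fun w' hw' f hf =>
    (Submodule.mem_orthogonal _ _).1 hw' f hf
  -- the orbits of the two points are different
  have hXY : ∀ x, ∀ h : H, PY x ≠ h • PX x := by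
    intro x h e
    obtain ⟨h1, h2⟩ := hfix _ _ h (hC x).1 (hC x).2 e
    -- split off the fixed part
    set z := (κ x).1 with hz
    set v := (κ x).2.1 with hv
    set ρ := (κ x).2.2 with hρ
    have hfixed : (‖v‖ - ‖z‖) • p + (ρ : V) = 0 := by
      have hmem1 : (‖v‖ - ‖z‖) • p + (ρ : V) ∈ Fx hV p :=
        Submodule.add_mem _ (Submodule.smul_mem _ _ (self_mem_Fx hV p)) ρ.2.1
      have hmem2 : (‖v‖ - ‖z‖) • p + (ρ : V) ∈ WW hV p := by
        have e3 : (‖v‖ - ‖z‖) • p + (ρ : V) = h • (A x : V) - (A x : V) - ε • (v : V) := by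
          rw [← h2]
          change _ = (A x : V) + (ε • (v : V) + (‖v‖ - ‖z‖) • p + (ρ : V)) - (A x : V) -
            ε • (v : V)
          abel
        rw [e3]
        exact Submodule.sub_mem _ (Submodule.sub_mem _ (smul_mem_orth hV h1 (A x).2) (A x).2)
          (Submodule.smul_mem _ _ v.2)
      exact inner_self_eq_zero.1 (hFW _ hmem2 _ hmem1)
    have hρ0 : ρ = 0 ∧ ‖v‖ = ‖z‖ := by
      have hρp : ⟪p, (ρ : V)⟫ = 0 :=
        (Submodule.mem_orthogonal_singleton_iff_inner_right).1 ρ.2.2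
      have h3 : ⟪p, (‖v‖ - ‖z‖) • p + (ρ : V)⟫ = 0 := by rw [hfixed, inner_zero_right]
      rw [inner_add_right, inner_smul_right, hρp, real_inner_self_eq_norm_sq, hp] at h3
      have h4 : ‖v‖ = ‖z‖ := by linarith
      refine ⟨?_, h4⟩
      rw [h4, sub_self, zero_smul, zero_add] at hfixed
      exact Subtype.ext hfixed
    have hW : (A x : V) + ε • (v : V) = h • (A x : V) := by
      rw [← h2]
      change _ = (A x : V) + (ε • (v : V) + (‖v‖ - ‖z‖) • p + (ρ : V))
      rw [add_assoc (ε • (v : V)), hfixed, add_zero]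
    have hv0 : v = 0 := by
      by_cases hh : h = 1
      · rw [hh, one_smul, add_eq_left] at hW
        have := (smul_eq_zero.1 hW).resolve_left hεpos.ne'
        exact Subtype.ext this
      · have h3 := hconst h hh h1 _ (A x).2
        rw [← hW, add_sub_cancel_left, norm_smul, Real.norm_eq_abs, abs_of_pos hεpos] at h3
        have h4 : ‖z - ε • v‖ ≤ 2 * ‖A x‖ := hMi2 _
        have h5 : ‖z‖ - ε * ‖v‖ ≤ ‖z - ε • v‖ := by
          have := norm_sub_norm_le z (ε • v)
          rwa [norm_smul, Real.norm_eq_abs, abs_of_pos hεpos] at this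
        rw [← hρ0.2] at h5
        have h6 : c₁ * ‖(A x : WW hV p)‖ ≤ ε * ‖v‖ := h3
        have hvn := norm_nonneg v
        have h7 : ε * ‖v‖ ≤ c₁ / 8 * ‖v‖ := mul_le_mul_of_nonneg_right hε2 hvn
        have h8 : ε * ‖v‖ ≤ 1 / 2 * ‖v‖ := mul_le_mul_of_nonneg_right hε1 hvn
        have h9 : ‖v‖ / 4 ≤ ‖A x‖ := by linarith
        have h10 : c₁ * (‖v‖ / 4) ≤ c₁ * ‖A x‖ := mul_le_mul_of_nonneg_left h9 hc₁.le
        have h11 : c₁ * ‖v‖ ≤ 0 := by linarith
        have h12 : ‖v‖ ≤ 0 := by
          by_contra hcon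
          push Not at hcon
          have := mul_pos hc₁ hcon
          linarith
        exact norm_le_zero_iff.1 h12
    have hz0 : z = 0 := by
      have := hρ0.2
      rw [hv0, norm_zero] at this
      exact norm_eq_zero.1 this.symm
    apply hκ0 x
    exact Prod.ext hz0 (Prod.ext hv0 hρ0.1)
  -- the base point
  let b : Fin N → I := fun _ => 0
  have hb : b ∈ Cube.boundary (Fin N) := ⟨⟨0, hN1⟩, Or.inl rfl⟩
  have hAb : ∀ x ∈ Cube.boundary (Fin N), A x = Mi q := by
    intro x hx
    change Mi ((κ x).1 - ε • (κ x).2.1) = Mi q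
    rw [hκb x hx]
    simp
  have hRb : ∀ x ∈ Cube.boundary (Fin N), R x = R b := by
    intro x hx
    change ε • (((κ x).2.1 : WW hV p) : V) + (‖(κ x).2.1‖ - ‖(κ x).1‖) • p +
      (((κ x).2.2 : F0 hV p) : V) = ε • (((κ b).2.1 : WW hV p) : V) +
      (‖(κ b).2.1‖ - ‖(κ b).1‖) • p + (((κ b).2.2 : F0 hV p) : V)
    rw [hκb x hx, hκb b hb]
  have hPXb : ∀ x ∈ Cube.boundary (Fin N), PX x = PX b := by
    intro x hx
    rw [hPX, hPX, hAb x hx, hAb b hb]
  have hPYb : ∀ x ∈ Cube.boundary (Fin N), PY x = PY b := by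
    intro x hx
    rw [hPY, hPY, hAb x hx, hAb b hb, hRb x hx]
  -- smoothness
  have hX0st : ∀ h : H, h • PX b = PX b → h = 1 := by
    intro h hh
    obtain ⟨h1, h2⟩ := hfix _ _ h (hC b).1 (hC b).1 hh.symm
    by_contra hne
    have h3 := hfree h hne h1 _ (A b).2 h2.symm
    have h4 : A b = 0 := Subtype.ext h3
    rw [hAb b hb] at h4
    have h5 := hMi q
    rw [h4, map_zero] at h5
    rw [← h5, norm_zero] at hq
    exact zero_ne_one hq
  -- the continuous maps
  have hPXc : Continuous PX :=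
    continuous_const.add ((continuous_subtype_val.comp hAc).const_smul c)
  have hPYc : Continuous PY := continuous_const.add
    (((continuous_subtype_val.comp hAc).add hRc).const_smul c)
  refine ⟨N, ⟨PX, hPXc⟩, ⟨PY, hPYc⟩, k, g, hN1, hg, hgst, hnX, hnY, hXY, ?_, ?_, ?_, ?_⟩
  · intro x hx y hy
    change PX x = PX y
    rw [hPXb x hx, hPXb y hy]
  · intro x hx y hy
    change PY x = PY y
    rw [hPYb x hx, hPYb y hy]
  · intro h hh
    exact hX0st h hh
  intro P Q hQP hQkP hP0 hQ0 hP1 hbd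
  have hP0' : ∀ x, P (0, x) = PX x := hP0
  have hQ0' : ∀ x, Q (0, x) = PY x := hQ0
  have hP1' : ∀ x, P (1, x) = PX b := hP1
  -- the detecting map
  let D : I × (Fin N → I) → ZZ hV p := fun a => del hV p k q (P a) (Q a)
  have hDval : ∀ a, D a = del hV p k q (P a) (Q a) := fun a => rfl
  have hDc : Continuous D :=
    (continuous_del hV p k q).comp (P.continuous.prodMk Q.continuous)
  have hD0 : ∀ a, D a ≠ 0 := fun a => del_ne_zero hV hp hkp hq (hQP a) (hQkP a)
  -- on the fibre it misses a half line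
  have hfib : ∀ (x : Fin N → I) (μ : ℝ), 0 ≤ μ →
      D (1, x) ≠ μ • ((-q, q, 0) : ZZ hV p) := by
    intro x μ hμ
    apply del_fiber hV hkp hq hc _ hμ
    rw [hP1', hPX, hV.smul_add, hkp, hV.smul_smul, add_sub_add_left_eq_sub, ← smul_sub,
      ← hMval, hAb b hb, hMi]
  -- the homotopy
  let Z0 : Type w := {z : ZZ hV p // z ≠ 0}
  have hpair : ∀ t : I, Continuous fun x : Fin N → I => ((t, x) : I × (Fin N → I)) :=
    fun t => continuous_const.prodMk continuous_id
  let f0 : C(Fin N → I, Z0) := ⟨fun x => ⟨D (0, x), hD0 _⟩,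
    (hDc.comp (hpair 0)).subtype_mk _⟩
  let f1 : C(Fin N → I, Z0) := ⟨fun x => ⟨D (1, x), hD0 _⟩,
    (hDc.comp (hpair 1)).subtype_mk _⟩
  have heq0 : -((-q, q, 0) : ZZ hV p) ≠ 0 := by
    intro h
    have : -(-q) = 0 := congrArg Prod.fst h
    rw [neg_neg] at this
    rw [this, norm_zero] at hq
    exact zero_ne_one hq
  let f2 : C(Fin N → I, Z0) := ContinuousMap.const _ ⟨-((-q, q, 0) : ZZ hV p), heq0⟩
  let H1 : f0.Homotopy f1 :=
    { toFun := fun a => ⟨D a, hD0 _⟩
      continuous_toFun := hDc.subtype_mk _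
      map_zero_left := fun x => rfl
      map_one_left := fun x => rfl }
  have hne2 : ∀ (t : I) (x : Fin N → I), (1 - (t : ℝ)) • D (1, x) +
      (t : ℝ) • (-((-q, q, 0) : ZZ hV p)) ≠ 0 := by
    intro t x h
    by_cases ht : t = 1
    · rw [ht] at h
      simp only [Set.Icc.coe_one, sub_self, zero_smul, zero_add, one_smul] at h
      exact heq0 h
    · have ht1 : (t : ℝ) < 1 := unitInterval.lt_one_iff_ne_one.2 ht
      have hpos : 0 < 1 - (t : ℝ) := by linarith
      have h1 : (1 - (t : ℝ)) • D (1, x) = (t : ℝ) • ((-q, q, 0) : ZZ hV p) := by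
        rw [smul_neg, add_neg_eq_zero] at h
        exact h
      apply hfib x ((1 - (t : ℝ))⁻¹ * t) (mul_nonneg (inv_pos.2 hpos).le t.2.1)
      rw [mul_smul, ← h1, smul_smul, inv_mul_cancel₀ hpos.ne', one_smul]
  let H2 : f1.Homotopy f2 :=
    { toFun := fun a => ⟨(1 - (a.1 : ℝ)) • D (1, a.2) +
        (a.1 : ℝ) • (-((-q, q, 0) : ZZ hV p)), hne2 a.1 a.2⟩
      continuous_toFun := by
        apply Continuous.subtype_mk
        have h1 : Continuous fun a : I × (Fin N → I) => (a.1 : ℝ) :=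
          continuous_subtype_val.comp continuous_fst
        have h2 : Continuous fun a : I × (Fin N → I) => D (1, a.2) :=
          (hDc.comp (hpair 1)).comp continuous_snd
        exact ((continuous_const.sub h1).smul h2).add (h1.smul continuous_const)
      map_zero_left := fun x => Subtype.ext (by
        change (1 - ((0 : I) : ℝ)) • D (1, x) +
          ((0 : I) : ℝ) • (-((-q, q, 0) : ZZ hV p)) = D (1, x)
        simp)
      map_one_left := fun x => Subtype.ext (by
        change (1 - ((1 : I) : ℝ)) • D (1, x) +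
          ((1 : I) : ℝ) • (-((-q, q, 0) : ZZ hV p)) = -((-q, q, 0) : ZZ hV p)
        simp) }
  let HH := H1.trans H2
  have hDb : ∀ (t : I), ∀ x ∈ Cube.boundary (Fin N), ∀ y ∈ Cube.boundary (Fin N),
      D (t, x) = D (t, y) := by
    intro t x hx y hy
    rw [hDval, hDval, (hbd t x hx y hy).1, (hbd t x hx y hy).2]
  obtain ⟨x, t, ht0, ht1, hxt⟩ := hκ ⟨fun a => (HH a).1,
    continuous_subtype_val.comp HH.continuous⟩ (fun a => (HH a).2) (by
      intro t x hx y hy
      change (HH (t, x)).1 = (HH (t, y)).1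
      simp only [HH, ContinuousMap.Homotopy.trans_apply]
      split_ifs with h
      · exact hDb _ x hx y hy
      · change (1 - _) • D (1, x) + _ = (1 - _) • D (1, y) + _
        rw [hDb 1 x hx y hy]) (by
      intro x y
      change (HH (1, x)).1 = (HH (1, y)).1
      rw [HH.apply_one, HH.apply_one]
      rfl)
  -- conclusion
  have hH0 : (HH (0, x)).1 = D (0, x) := by
    rw [HH.apply_zero]
    rfl
  change (1 - t) • (HH (0, x)).1 + t • κ x = 0 at hxt
  rw [hH0] at hxt
  have hform : D (0, x) = _ := del_formula hV hp hkp (c := c) (ε := ε) (k := k)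
    (q := q) (κ x).1 (κ x).2.1 (κ x).2.2 (X := P (0, x)) (Y := Q (0, x)) (by
      rw [hP0', hPX, hV.smul_add, hkp, hV.smul_smul, add_sub_add_left_eq_sub, ← smul_sub,
        ← hMval]
      change c • ((M (Mi ((κ x).1 - ε • (κ x).2.1)) : WW hV p) : V) = _
      rw [hMi]
      rfl) (by
      rw [hP0', hQ0', hPX, hPY, add_sub_add_left_eq_sub, ← smul_sub, add_sub_cancel_left])
  rw [hform] at hxt
  exact hκ0 x (straight_line hV hq hc hεpos ht0 ht1 _ _ _ hxt)

end Pool.Agent.Helper64.Iso
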